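import Pool.Agent.Helper1.OQ.Stage

/-!
MP_f8e2d3_co: hosts with hubs. The assembly.
-/

set_option autoImplicit false
set_option linter.unusedSectionVars false

namespace Pool.Agent.Helper1.OQ

open Pool.Agent.Helper1.OP

variable {V : Type*} [Fintype V] [DecidableEq V]

/-- The target sets: the small sides of the host. -/
def Tg (N : Bool → V → Finset V) (Λ : ℕ) (b : Bool) (w : V) : Finset V :=
  if (N b w).card ≤ Λ then N b w else ∅

theorem Tg_sub (N : Bool → V → Finset V) (Λ : ℕ) (b : Bool) (w : V) : Tg N Λ b w ⊆ N b w := by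
  unfold Tg
  split_ifs
  · exact subset_rfl
  · exact Finset.empty_subset _

theorem Tg_card (N : Bool → V → Finset V) (Λ : ℕ) (b : Bool) (w : V) :
    (Tg N Λ b w).card ≤ Λ := by
  unfold Tg
  split_ifs with h
  · exact h
  · simp

theorem Tg_nonempty (N : Bool → V → Finset V) (Λ : ℕ) (b : Bool) (w : V)
    (h : (Tg N Λ b w).Nonempty) : Tg N Λ b w = N b w := by
  unfold Tg at h ⊢
  split_ifs at h ⊢ with h1
  · rfl
  · simp at h

/-- The option sets of a stage. -/
def Op (N : Bool → V → Finset V) (Λ : ℕ) (Z : Finset V) (a : Bool) (v : V) : Finset V :=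
  (N a v \ Z).filter fun z => Λ < (dom (Tg N Λ) (!a) v).card →
    (dom (Tg N Λ) (!a) z ∩ dom (Tg N Λ) (!a) v).card ≤ 2 * Λ

theorem dom_sub (N : Bool → V → Finset V) (hNs : ∀ b x y, y ∈ N b x → x ∈ N (!b) y)
    (Λ : ℕ) (a : Bool) (v : V) : dom (Tg N Λ) (!a) v ⊆ N a v := by
  intro w hw
  unfold dom at hw
  rw [Finset.mem_filter] at hw
  have h1 := hNs _ _ _ (Tg_sub N Λ _ _ hw.2)
  simpa using h1

/-- Most elements `z` of a big dominated set `Q` dominate few elements of `Q`. -/
theorem markov (T : Bool → V → Finset V) (Λ : ℕ) (hT : ∀ b w, (T b w).card ≤ Λ) (c : Bool)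
    (Q : Finset V) (hΛ : 1 ≤ Λ) :
    2 * (Q.filter fun z => 2 * Λ < (dom T c z ∩ Q).card).card ≤ Q.card := by
  set G := Q.filter fun z => 2 * Λ < (dom T c z ∩ Q).card with hG
  have h1 : G.card * (2 * Λ) ≤ ∑ z ∈ G, (dom T c z ∩ Q).card := by
    rw [← smul_eq_mul, ← Finset.sum_const]
    apply Finset.sum_le_sum
    intro z hz
    rw [hG, Finset.mem_filter] at hz
    exact hz.2.le
  have h2 : ∑ z ∈ G, (dom T c z ∩ Q).card ≤ Q.card * Λ := by
    have e1 : ∀ z ∈ G, (dom T c z ∩ Q).card = ∑ w ∈ Q, if z ∈ T c w then 1 else 0 := by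
      intro z _
      rw [Finset.sum_boole, Nat.cast_id]
      congr 1
      ext w
      simp [dom, and_comm]
    rw [Finset.sum_congr rfl e1, Finset.sum_comm]
    rw [← smul_eq_mul, ← Finset.sum_const]
    apply Finset.sum_le_sum
    intro w _
    rw [Finset.sum_boole, Nat.cast_id]
    refine (Finset.card_le_card ?_).trans (hT c w)
    intro z hz
    rw [Finset.mem_filter] at hz
    exact hz.2
  have h3 : Λ * (2 * G.card) ≤ Λ * Q.card := by
    calc Λ * (2 * G.card) = G.card * (2 * Λ) := by ring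
      _ ≤ Q.card * Λ := h1.trans h2
      _ = _ := by ring
  exact Nat.le_of_mul_le_mul_left h3 hΛ

theorem vis_card (Y : ℕ → V) (t : ℕ) : (vis Y t).card ≤ t := by
  unfold vis
  refine Finset.card_image_le.trans ?_
  simp

/-- The number of unvisited elements. -/
theorem sdiff_vis (Y : ℕ → V) (t : ℕ) (A : Finset V) :
    A.card ≤ (A \ vis Y t).card + (hits Y 1 t A).card + 1 := by
  have h1 : A.card = (A ∩ vis Y t).card + (A \ vis Y t).card := by
    rw [Finset.card_inter_add_card_sdiff]
  have h2 : A ∩ vis Y t ⊆ insert (Y 0) ((hits Y 1 t A).image Y) := by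
    intro u hu
    rw [Finset.mem_inter] at hu
    obtain ⟨hu1, hu2⟩ := hu
    unfold vis at hu2
    rw [Finset.mem_image] at hu2
    obtain ⟨i, hi, rfl⟩ := hu2
    rw [Finset.mem_range] at hi
    rcases Nat.eq_zero_or_pos i with h | h
    · subst h
      exact Finset.mem_insert_self _ _
    · apply Finset.mem_insert_of_mem
      rw [Finset.mem_image]
      refine ⟨i, ?_, rfl⟩
      unfold hits
      rw [Finset.mem_filter, Finset.mem_Ico]
      exact ⟨⟨h, hi⟩, hu1⟩
  have h3 := (Finset.card_le_card h2).trans (Finset.card_insert_le _ _)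
  have h4 := Finset.card_image_le (s := hits Y 1 t A) (f := Y)
  omega

theorem Op_card (N : Bool → V → Finset V) (hNs : ∀ b x y, y ∈ N b x → x ∈ N (!b) y)
    (Λ : ℕ) (Z : Finset V) (a : Bool) (v : V) (D : ℕ)
    (hZ : 2 * (Z.card + D) ≤ Λ) (hΛ : 1 ≤ Λ)
    (hsmall : (N a v).card ≤ Λ → D ≤ (N a v \ Z).card) :
    D ≤ (Op N Λ Z a v).card := by
  by_cases hQ : Λ < (dom (Tg N Λ) (!a) v).card
  · -- big dominated set
    have h1 := markov (Tg N Λ) Λ (Tg_card N Λ) (!a) (dom (Tg N Λ) (!a) v) hΛ
    have h2 : ((dom (Tg N Λ) (!a) v).filter fun z =>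
        ¬ 2 * Λ < (dom (Tg N Λ) (!a) z ∩ dom (Tg N Λ) (!a) v).card) \ Z ⊆ Op N Λ Z a v := by
      intro z hz
      rw [Finset.mem_sdiff, Finset.mem_filter] at hz
      unfold Op
      rw [Finset.mem_filter, Finset.mem_sdiff]
      refine ⟨⟨dom_sub N hNs Λ a v hz.1.1, hz.2⟩, ?_⟩
      intro _
      exact not_lt.1 hz.1.2
    have h3 := Finset.card_le_card h2
    have h4 := Finset.card_filter_add_card_filter_not (s := dom (Tg N Λ) (!a) v)
      (fun z => 2 * Λ < (dom (Tg N Λ) (!a) z ∩ dom (Tg N Λ) (!a) v).card)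
    have h5 : ((dom (Tg N Λ) (!a) v).filter fun z =>
        ¬ 2 * Λ < (dom (Tg N Λ) (!a) z ∩ dom (Tg N Λ) (!a) v).card).card - Z.card ≤
        (((dom (Tg N Λ) (!a) v).filter fun z =>
        ¬ 2 * Λ < (dom (Tg N Λ) (!a) z ∩ dom (Tg N Λ) (!a) v).card) \ Z).card :=
      Finset.le_card_sdiff _ _
    omega
  · have h1 : Op N Λ Z a v = N a v \ Z := by
      unfold Op
      apply Finset.filter_true_of_mem
      intro z _ h
      exact absurd h hQ
    rw [h1]
    by_cases hs : (N a v).card ≤ Λ
    · exact hsmall hs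
    · have h5 : (N a v).card - Z.card ≤ (N a v \ Z).card := Finset.le_card_sdiff _ _
      omega

theorem assembly (N : Bool → V → Finset V) (hNO : ∀ b x y, y ∈ N b x → x ∉ N b y)
    (hNs : ∀ b x y, y ∈ N b x → x ∈ N (!b) y)
    (d Λ L L' K q B J D₀ : ℕ) (μ : ℕ → Bool) (par : ℕ → ℕ)
    (hd : ∀ b v, d ≤ (N b v).card) (hq : 1 ≤ q) (hL : 1 ≤ L)
    (hlt : ∀ i, 1 ≤ i → par i < i)
    (hpar : ∀ n j, 1 ≤ j → j < L → par (1 + n * L + j) = 1 + n * L + j - 1)
    (hT : K * L < D₀)
    (hΛ : 2 * (J * (K * L) + 1 + (D₀ + J * (L' * K + B))) ≤ Λ)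
    (hL' : ∀ D : ℕ, D₀ ≤ D → 1 + (1 / (q : ℝ)) * (1 + 1 / (q : ℝ)) ^ L *
      ((L + 1) * D / (2 * (D - (K * L : ℕ)))) ≤ (1 + 1 / (q : ℝ)) ^ L')
    (hB : ((4 * Λ * (J * (K * L) + 1) : ℕ) : ℝ) * (1 + 1 / (q : ℝ)) ^ L <
      (1 + 1 / (q : ℝ)) ^ (B + 1))
    (hF : ∀ b, ∀ n ≤ J * K, ∀ f ⊆ Finset.Ico 1 (1 + n * L), Indep μ par b f →
      f.card + 1 + (D₀ + L' * (J * K - n) + J * B) ≤ d) (x : V) :
    ∀ s ≤ J, ∃ (Y : ℕ → V) (S : Finset (Bool × V)),
      (∀ i, 1 ≤ i → i < 1 + s * (K * L) → Y i ∈ N (μ i) (Y (par i))) ∧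
      (∀ i < 1 + s * (K * L), ∀ j < 1 + s * (K * L), Y i = Y j → i = j) ∧
      S.card ≤ 4 * Λ * (1 + s * (K * L)) ∧
      (∀ e ∉ S, Indep μ par e.1 (hits Y 1 (1 + s * (K * L)) (Tg N Λ e.1 e.2)) ∧
        ∀ i ∈ hits Y 1 (1 + s * (K * L)) (Tg N Λ e.1 e.2),
          Λ < (dom (Tg N Λ) e.1 (Y i)).card) ∧
      (∀ e ∈ S, D₀ + (J - s) * (L' * K + B) ≤
        (Tg N Λ e.1 e.2 \ vis Y (1 + s * (K * L))).card) := by
  intro s
  induction s with
  | zero =>
    intro _
    refine ⟨fun _ => x, ∅, ?_, ?_, by simp, ?_, by simp⟩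
    · intro i h1 h2
      omega
    · intro i h1 j h2 _
      omega
    · intro e _
      have : hits (fun _ => x) 1 (1 + 0 * (K * L)) (Tg N Λ e.1 e.2) = ∅ := by
        unfold hits
        simp
      rw [this]
      exact ⟨fun i hi => by simp at hi, fun i hi => by simp at hi⟩
  | succ s ih =>
    intro hs
    obtain ⟨Y, S, hstep, hinj, hcard, hun, hpr⟩ := ih (by omega)
    set n₀ : ℕ := 1 + s * (K * L) with hn₀
    set D : ℕ := D₀ + (J - s) * (L' * K + B) with hD
    have hKs : s * (K * L) + K * L ≤ J * (K * L) := by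
      have h1 : (s + 1) * (K * L) ≤ J * (K * L) := Nat.mul_le_mul_right _ hs
      have h2 : (s + 1) * (K * L) = s * (K * L) + K * L := by ring
      omega
    have hDle : D ≤ D₀ + J * (L' * K + B) := by
      have : (J - s) * (L' * K + B) ≤ J * (L' * K + B) :=
        Nat.mul_le_mul_right _ (Nat.sub_le _ _)
      omega
    have hΛ1 : 1 ≤ Λ := by omega
    -- sizes of the sides whose hit sets are independent
    have hsize : ∀ (Y' : ℕ → V) (b : Bool) (w : V) (n : ℕ), n ≤ J * K →
        Indep μ par b (hits Y' 1 (1 + n * L) (N b w)) →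
        D₀ + L' * (J * K - n) + J * B ≤ (N b w \ vis Y' (1 + n * L)).card := by
      intro Y' b w n hn hI
      have h1 := hF b n hn (hits Y' 1 (1 + n * L) (N b w)) (Finset.filter_subset _ _) hI
      have h2 := sdiff_vis Y' (1 + n * L) (N b w)
      have h3 := hd b w
      omega
    have hsmall : ∀ a v, (N a v).card ≤ Λ → D ≤ (N a v \ vis Y n₀).card := by
      intro a v hav
      have hTgN : Tg N Λ a v = N a v := by
        unfold Tg
        rw [if_pos hav]
      by_cases he : (a, v) ∈ S
      · have h1 := hpr (a, v) he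
        simp only [hTgN] at h1
        exact h1
      · have h1 := (hun (a, v) he).1
        simp only [hTgN] at h1
        have e1 : n₀ = 1 + (s * K) * L := by rw [hn₀]; ring
        rw [e1] at h1 ⊢
        have h2 := hsize Y a v (s * K) (Nat.mul_le_mul_right _ (by omega)) h1
        have e2 : L' * (J * K - s * K) = (J - s) * (L' * K) := by
          rw [← Nat.sub_mul]
          ring
        have e3 : (J - s) * (L' * K + B) = (J - s) * (L' * K) + (J - s) * B := by ring
        have e4 : (J - s) * B ≤ J * B := Nat.mul_le_mul_right _ (Nat.sub_le _ _)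
        rw [e2] at h2
        rw [hD, e3]
        omega
    have hvc := vis_card Y n₀
    have hOD : ∀ a v, D ≤ (Op N Λ (vis Y n₀) a v).card := by
      intro a v
      apply Op_card N hNs Λ (vis Y n₀) a v D (by omega) hΛ1 (hsmall a v)
    obtain ⟨Y', S', hag, hst, hin, hsub, hcard', hun', hpr'⟩ := stage
      (Op N Λ (vis Y n₀)) (Tg N Λ)
      (by
        intro b u w h h'
        unfold Op at h h'
        rw [Finset.mem_filter, Finset.mem_sdiff] at h h'
        exact hNO b u w h.1.1 h'.1.1)
      D Λ (2 * Λ) L L' K q B n₀ μ par Y S hOD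
      (by
        intro a v z hz h
        unfold Op at hz
        rw [Finset.mem_filter] at hz
        exact hz.2 h)
      hq hL (by omega) (by omega) hlt
      (by
        intro n _ j h1 h2
        have e1 : n₀ + n * L = 1 + (s * K + n) * L := by rw [hn₀]; ring
        rw [e1]
        exact hpar _ j h1 h2)
      (hL' D (by omega))
      (by
        refine lt_of_le_of_lt ?_ hB
        have h1 : (2 * Λ + 2 * Λ) * (n₀ + K * L) ≤ 4 * Λ * (J * (K * L) + 1) := by
          have h2 : 2 * Λ + 2 * Λ = 4 * Λ := by ring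
          rw [h2]
          apply Nat.mul_le_mul_left
          omega
        have h2 : (((2 * Λ + 2 * Λ) * (n₀ + K * L) : ℕ) : ℝ) ≤
            ((4 * Λ * (J * (K * L) + 1) : ℕ) : ℝ) := by exact_mod_cast h1
        gcongr)
      (by
        have h2 : 2 * Λ + 2 * Λ = 4 * Λ := by ring
        rw [h2]
        exact hcard)
      hun
    have hend : n₀ + K * L = 1 + (s + 1) * (K * L) := by rw [hn₀]; ring
    have hopN : ∀ a v z, z ∈ Op N Λ (vis Y n₀) a v → z ∈ N a v ∧ z ∉ vis Y n₀ := by
      intro a v z hz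
      unfold Op at hz
      rw [Finset.mem_filter, Finset.mem_sdiff] at hz
      exact hz.1
    refine ⟨Y', S', ?_, ?_, ?_, ?_, ?_⟩
    · intro i hi hi2
      rw [← hend] at hi2
      rcases Nat.lt_or_ge i n₀ with h | h
      · rw [hag i h, hag (par i) (by have := hlt i hi; omega)]
        exact hstep i hi h
      · exact (hopN _ _ _ (hst i h hi2)).1
    · intro i hi j hj heq
      rw [← hend] at hi hj
      rcases Nat.lt_or_ge i n₀ with h | h <;> rcases Nat.lt_or_ge j n₀ with h' | h'
      · rw [hag i h, hag j h'] at heq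
        exact hinj i h j h' heq
      · exfalso
        apply (hopN _ _ _ (hst j h' hj)).2
        rw [← heq, hag i h]
        exact Finset.mem_image_of_mem _ (Finset.mem_range.2 h)
      · exfalso
        apply (hopN _ _ _ (hst i h hi)).2
        rw [heq, hag j h']
        exact Finset.mem_image_of_mem _ (Finset.mem_range.2 h')
      · exact hin i h hi j h' hj heq
    · rw [← hend]
      have h2 : 2 * Λ + 2 * Λ = 4 * Λ := by ring
      rw [h2] at hcard'
      exact hcard'
    · rw [← hend]
      exact hun'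
    · intro e he
      rw [← hend]
      obtain ⟨n, hn, hcase, hmin⟩ := hpr' e he
      have hJs : J - s = (J - (s + 1)) + 1 := by omega
      set r : ℕ := J - (s + 1) with hr
      have hDr : D = D₀ + r * (L' * K + B) + (L' * K + B) := by
        rw [hD, hJs]
        ring
      obtain ⟨he0, hn0⟩ | ⟨hne, hI⟩ := hcase
      · subst hn0
        have h1 : vis Y' (n₀ + 0 * L) = vis Y n₀ := by
          rw [Nat.zero_mul, Nat.add_zero]
          exact vis_congr Y Y' n₀ n₀ hag le_rfl
        rw [h1] at hmin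
        have h2 := hpr e he0
        rw [min_eq_left h2, Nat.sub_zero] at hmin
        omega
      · have hTgN := Tg_nonempty N Λ e.1 e.2 hne
        rw [hTgN] at hI hmin ⊢
        have e1 : n₀ + n * L = 1 + (s * K + n) * L := by rw [hn₀]; ring
        rw [e1] at hI hmin
        have hnJ : s * K + n ≤ J * K := by
          have h1 : (s + 1) * K ≤ J * K := Nat.mul_le_mul_right _ hs
          have h2 : (s + 1) * K = s * K + K := by ring
          omega
        have h2 := hsize Y' e.1 e.2 (s * K + n) hnJ hI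
        obtain ⟨p, hp⟩ : ∃ p, K = n + p := ⟨K - n, by omega⟩
        have e2 : J * K - (s * K + n) = r * K + p := by
          have : J = s + 1 + r := by omega
          have h3 : J * K = s * K + K + r * K := by rw [this]; ring
          omega
        have e3 : K - n = p := by omega
        rw [e2] at h2
        rw [e3] at hmin
        have e4 : L' * (r * K + p) = r * (L' * K) + L' * p := by ring
        have e5 : r * (L' * K + B) = r * (L' * K) + r * B := by ring
        have e6 : L' * p ≤ L' * K := Nat.mul_le_mul_left _ (by omega)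
        have e7 : r * B + B ≤ J * B := by
          have h3 : (r + 1) * B ≤ J * B := Nat.mul_le_mul_right _ (by omega)
          have h4 : (r + 1) * B = r * B + B := by ring
          omega
        rw [e4] at h2
        rw [e5] at hDr ⊢
        rcases min_le_iff.1 hmin with h3 | h3
        · omega
        · omega

end Pool.Agent.Helper1.OQ
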