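import Pool.Agent.Helper1.OP.Stage

/-!
MP_f8e2d3_co: hosts with hubs. Basic definitions and the weighted window lemma.
-/

set_option autoImplicit false
set_option linter.unusedSectionVars false

namespace Pool.Agent.Helper1.OQ

open Pool.Agent.Helper1.OP

variable {V : Type*} [Fintype V] [DecidableEq V]

/-- The vertices `w` whose target set `T b w` contains `u`. -/
def dom (T : Bool → V → Finset V) (b : Bool) (u : V) : Finset V :=
  Finset.univ.filter fun w => u ∈ T b w

/-- No index of `f` with outward letter `!b` has its parent in `f`. -/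
def Indep (μ : ℕ → Bool) (par : ℕ → ℕ) (b : Bool) (f : Finset ℕ) : Prop :=
  ∀ i ∈ f, μ i = !b → par i ∉ f

/-- The indices in `[s, t)` at which `A` is hit. -/
def hits (Y : ℕ → V) (s t : ℕ) (A : Finset V) : Finset ℕ :=
  (Finset.Ico s t).filter fun i => Y i ∈ A

/-- The vertices visited before time `t`. -/
def vis (Y : ℕ → V) (t : ℕ) : Finset V := (Finset.range t).image Y

theorem hits_congr (Y Y' : ℕ → V) (s t t' : ℕ) (A : Finset V) (h : ∀ i < t, Y' i = Y i)
    (ht : t' ≤ t) : hits Y' s t' A = hits Y s t' A := by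
  unfold hits
  apply Finset.filter_congr
  intro i hi
  rw [Finset.mem_Ico] at hi
  rw [h i (by omega)]

theorem vis_congr (Y Y' : ℕ → V) (t t' : ℕ) (h : ∀ i < t, Y' i = Y i)
    (ht : t' ≤ t) : vis Y' t' = vis Y t' := by
  unfold vis
  apply Finset.image_congr
  intro i hi
  have := Finset.mem_range.1 hi
  exact h i (by omega)

theorem hits_split (Y : ℕ → V) (s r t : ℕ) (A : Finset V) (h1 : s ≤ r) (h2 : r ≤ t) :
    (hits Y s t A).card = (hits Y s r A).card + (hits Y r t A).card := by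
  unfold hits
  rw [← Finset.Ico_union_Ico_eq_Ico h1 h2, Finset.filter_union, Finset.card_union_of_disjoint]
  apply Finset.disjoint_filter_filter
  exact Finset.Ico_disjoint_Ico_consecutive s r t

theorem hits_window (Y : ℕ → V) (N L : ℕ) (A : Finset V) :
    (hits Y N (N + L) A).card ≤ ((Finset.range L).filter fun j => Y (N + j) ∈ A).card := by
  have h : hits Y N (N + L) A ⊆
      ((Finset.range L).filter fun j => Y (N + j) ∈ A).image fun j => N + j := by
    intro i hi
    unfold hits at hi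
    rw [Finset.mem_filter, Finset.mem_Ico] at hi
    rw [Finset.mem_image]
    refine ⟨i - N, ?_, by omega⟩
    rw [Finset.mem_filter, Finset.mem_range]
    refine ⟨by omega, ?_⟩
    have : N + (i - N) = i := by omega
    rw [this]
    exact hi.2
  exact (Finset.card_le_card h).trans Finset.card_image_le

theorem hits_card_le (Y : ℕ → V) (N L : ℕ) (A : Finset V) : (hits Y N (N + L) A).card ≤ L := by
  refine (hits_window Y N L A).trans ((Finset.card_filter_le _ _).trans ?_)
  simp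

/-- The window lemma with exponential weights on a family of sets. -/
theorem windowR (O : Bool → V → Finset V) (hO : ∀ b x y, y ∈ O b x → x ∉ O b y)
    (P : ℕ → Bool) (D m L q : ℕ) (hD : ∀ b v, D ≤ (O b v).card) (hm : m < D) (hq : 1 ≤ q)
    (S : Finset (Bool × V)) (A : Bool × V → Finset V) (hA : ∀ e ∈ S, (A e).card ≤ D)
    (E : Bool × V → ℕ) (F : Finset V) (hF : F.card + L ≤ m) (x : V) (j : ℕ) :
    ∃ X : ℕ → V, X 0 = x ∧ (∀ i < L, X (i + 1) ∈ O (P (j + i)) (X i)) ∧
      (∀ i < L, X (i + 1) ∉ F) ∧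
      (∀ i < L, ∀ i' < L, X (i + 1) = X (i' + 1) → i = i') ∧
      ∑ e ∈ S, (1 + 1 / (q : ℝ)) ^ E e *
        (((Finset.range L).filter fun i => X (i + 1) ∈ A e).card : ℝ) ≤
      ((L + 1) * D / (2 * (D - m))) * ∑ e ∈ S, (1 + 1 / (q : ℝ)) ^ E e := by
  have hq0 : (0 : ℝ) < q := by exact_mod_cast hq
  set N : ℕ := S.sup E with hN
  have hEN : ∀ e ∈ S, E e ≤ N := fun e he => Finset.le_sup he
  set W : Bool × V → ℕ := fun e => (q + 1) ^ E e * q ^ (N - E e) with hW
  have hWr : ∀ e ∈ S, (W e : ℝ) = (q : ℝ) ^ N * (1 + 1 / (q : ℝ)) ^ E e := by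
    intro e he
    have h2 : (q : ℝ) ^ N = (q : ℝ) ^ E e * (q : ℝ) ^ (N - E e) := by
      rw [← pow_add]
      congr 1
      have := hEN e he
      omega
    have h3 : (1 + 1 / (q : ℝ)) ^ E e = ((q : ℝ) + 1) ^ E e / (q : ℝ) ^ E e := by
      rw [← div_pow]
      congr 1
      field_simp
    show (((q + 1) ^ E e * q ^ (N - E e) : ℕ) : ℝ) = _
    rw [h3, h2]
    push_cast
    have h4 : (q : ℝ) ^ E e ≠ 0 := by positivity
    field_simp
  obtain ⟨X, h0, h1, h2, h3, h4⟩ := window O hO P D m L hD hm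
    (fun u => ∑ e ∈ S, if u ∈ A e then W e else 0) F hF x j
  refine ⟨X, h0, h1, h2, h3, ?_⟩
  set a : Bool × V → ℕ := fun e =>
    ((Finset.range L).filter fun i => X (i + 1) ∈ A e).card with ha
  have e1 : ∑ i ∈ Finset.range L, (∑ e ∈ S, if X (i + 1) ∈ A e then W e else 0) =
      ∑ e ∈ S, W e * a e := by
    rw [Finset.sum_comm]
    apply Finset.sum_congr rfl
    intro e _
    rw [← Finset.sum_filter, Finset.sum_const, smul_eq_mul, mul_comm]
  have e2 : ∑ u, (∑ e ∈ S, if u ∈ A e then W e else 0) ≤ D * ∑ e ∈ S, W e := by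
    rw [Finset.sum_comm, Finset.mul_sum]
    apply Finset.sum_le_sum
    intro e he
    rw [← Finset.sum_filter, Finset.sum_const, smul_eq_mul]
    have : (Finset.univ.filter fun u => u ∈ A e) = A e := by
      ext u
      simp
    rw [this]
    exact Nat.mul_le_mul_right _ (hA e he)
  rw [e1] at h4
  have h5 : 2 * (D - m) * ∑ e ∈ S, W e * a e ≤ (L + 1) * (D * ∑ e ∈ S, W e) :=
    h4.trans (Nat.mul_le_mul_left _ e2)
  have h6 : ((2 * (D - m) * ∑ e ∈ S, W e * a e : ℕ) : ℝ) ≤
      (((L + 1) * (D * ∑ e ∈ S, W e) : ℕ) : ℝ) := by exact_mod_cast h5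
  push_cast [Nat.cast_sub hm.le] at h6
  have h7 : ∑ e ∈ S, (W e : ℝ) * (a e : ℝ) =
      (q : ℝ) ^ N * ∑ e ∈ S, (1 + 1 / (q : ℝ)) ^ E e * (a e : ℝ) := by
    rw [Finset.mul_sum]
    apply Finset.sum_congr rfl
    intro e he
    rw [hWr e he]
    ring
  have h8 : ∑ e ∈ S, (W e : ℝ) = (q : ℝ) ^ N * ∑ e ∈ S, (1 + 1 / (q : ℝ)) ^ E e := by
    rw [Finset.mul_sum]
    apply Finset.sum_congr rfl
    intro e he
    rw [hWr e he]
  rw [h7, h8] at h6
  have hDm : (0 : ℝ) < D - m := by
    have : (m : ℝ) < D := by exact_mod_cast hm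
    linarith
  have h9 : (0 : ℝ) < (q : ℝ) ^ N := by positivity
  have h10 : (q : ℝ) ^ N * (2 * (D - m) * ∑ e ∈ S, (1 + 1 / (q : ℝ)) ^ E e * (a e : ℝ)) ≤
      (q : ℝ) ^ N * ((L + 1) * (D * ∑ e ∈ S, (1 + 1 / (q : ℝ)) ^ E e)) := by
    calc _ = 2 * (D - m) * ((q : ℝ) ^ N *
          ∑ e ∈ S, (1 + 1 / (q : ℝ)) ^ E e * (a e : ℝ)) := by ring
      _ ≤ _ := h6
      _ = _ := by ring
  have h11 := le_of_mul_le_mul_left h10 h9
  rw [div_mul_eq_mul_div, le_div_iff₀ (by positivity)]
  calc _ = 2 * (D - m) * ∑ e ∈ S, (1 + 1 / (q : ℝ)) ^ E e * (a e : ℝ) := by ring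
    _ ≤ _ := h11
    _ = _ := by ring

/-- The growth of the potential over one window. -/
theorem pot_grow (δ R : ℝ) (hδ : 0 ≤ δ) (L : ℕ) (S : Finset (Bool × V)) (E a : Bool × V → ℕ)
    (ha : ∀ e ∈ S, a e ≤ L)
    (h : ∑ e ∈ S, (1 + δ) ^ E e * (a e : ℝ) ≤ R * ∑ e ∈ S, (1 + δ) ^ E e) :
    ∑ e ∈ S, (1 + δ) ^ (E e + a e) ≤
      (1 + δ * (1 + δ) ^ L * R) * ∑ e ∈ S, (1 + δ) ^ E e := by
  have hper : ∀ e ∈ S, (1 + δ) ^ (E e + a e) ≤
      (1 + δ) ^ E e + δ * (1 + δ) ^ L * ((1 + δ) ^ E e * (a e : ℝ)) := by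
    intro e he
    have e2 := pow_bound δ hδ (a e) L (ha e he)
    have e3 : 0 ≤ (1 + δ) ^ E e := by positivity
    rw [pow_add]
    calc (1 + δ) ^ E e * (1 + δ) ^ a e ≤
        (1 + δ) ^ E e * (1 + a e * (δ * (1 + δ) ^ L)) := by gcongr
      _ = _ := by ring
  refine (Finset.sum_le_sum hper).trans ?_
  rw [Finset.sum_add_distrib, ← Finset.mul_sum]
  have hc : 0 ≤ δ * (1 + δ) ^ L := by positivity
  calc _ ≤ ∑ e ∈ S, (1 + δ) ^ E e + δ * (1 + δ) ^ L * (R * ∑ e ∈ S, (1 + δ) ^ E e) := by gcongr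
    _ = _ := by ring

/-- The sets that are protected because of a new vertex `y` reached from `z` by letter `c`. -/
def R (T : Bool → V → Finset V) (Λ Λ₂ : ℕ) (c : Bool) (y z : V) : Finset (Bool × V) :=
  Finset.univ.filter fun e => y ∈ T e.1 e.2 ∧ ((dom T e.1 y).card ≤ Λ ∨
    (e.1 = !c ∧ z ∈ T e.1 e.2 ∧ (dom T e.1 y ∩ dom T e.1 z).card ≤ Λ₂))

theorem R_card (T : Bool → V → Finset V) (Λ Λ₂ : ℕ) (c : Bool) (y z : V) :
    (R T Λ Λ₂ c y z).card ≤ 2 * Λ + Λ₂ := by
  have h : R T Λ Λ₂ c y z ⊆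
      ((if (dom T true y).card ≤ Λ then (dom T true y).image (fun w => (true, w)) else ∅) ∪
      (if (dom T false y).card ≤ Λ then (dom T false y).image (fun w => (false, w)) else ∅)) ∪
      (if (dom T (!c) y ∩ dom T (!c) z).card ≤ Λ₂ then
        (dom T (!c) y ∩ dom T (!c) z).image (fun w => (!c, w)) else ∅) := by
    rintro ⟨b, w⟩ he
    unfold R at he
    rw [Finset.mem_filter] at he
    obtain ⟨_, hy, h1 | ⟨h1, h2, h3⟩⟩ := he
    · apply Finset.mem_union_left
      have hw : w ∈ dom T b y := by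
        unfold dom
        simpa using hy
      cases b
      · apply Finset.mem_union_right
        rw [if_pos h1]
        exact Finset.mem_image.2 ⟨w, hw, rfl⟩
      · apply Finset.mem_union_left
        rw [if_pos h1]
        exact Finset.mem_image.2 ⟨w, hw, rfl⟩
    · apply Finset.mem_union_right
      simp only at h1 h2 h3 hy
      subst h1
      rw [if_pos h3]
      refine Finset.mem_image.2 ⟨w, ?_, rfl⟩
      unfold dom
      simpa using ⟨hy, h2⟩
  refine (Finset.card_le_card h).trans ((Finset.card_union_le _ _).trans ?_)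
  have h1 : ((if (dom T true y).card ≤ Λ then
      (dom T true y).image (fun w => (true, w)) else ∅) : Finset (Bool × V)).card ≤ Λ := by
    split_ifs with h
    · exact Finset.card_image_le.trans h
    · simp
  have h2 : ((if (dom T false y).card ≤ Λ then
      (dom T false y).image (fun w => (false, w)) else ∅) : Finset (Bool × V)).card ≤ Λ := by
    split_ifs with h
    · exact Finset.card_image_le.trans h
    · simp
  have h3 : ((if (dom T (!c) y ∩ dom T (!c) z).card ≤ Λ₂ then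
        (dom T (!c) y ∩ dom T (!c) z).image (fun w => (!c, w)) else ∅) :
        Finset (Bool × V)).card ≤ Λ₂ := by
    split_ifs with h
    · exact Finset.card_image_le.trans h
    · simp
  have h4 := Finset.card_union_le
    ((if (dom T true y).card ≤ Λ then (dom T true y).image (fun w => (true, w)) else ∅) :
      Finset (Bool × V))
    (if (dom T false y).card ≤ Λ then (dom T false y).image (fun w => (false, w)) else ∅)
  omega

end Pool.Agent.Helper1.OQ
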