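import Pool.Agent.Helper1.OQ.Basic

/-!
MP_f8e2d3_co: hosts with hubs. The two-ended exploration, combinatorial part (typed by helper78).
-/

set_option autoImplicit false

namespace Pool.Agent.Helper1.OQ

/-- Outward letters: indices `1..a` explore the front (positions `m, m+1, …`), the indices
`a+1, a+2, …` explore the back (positions `m-1, m-2, …`). -/
def mu (σ : ℕ → Bool) (m a : ℕ) (i : ℕ) : Bool :=
  if i ≤ a then σ (m + i - 1) else !σ (m - (i - a))

def pr (a : ℕ) (i : ℕ) : ℕ := if i = a + 1 then 0 else i - 1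

/-- number of positions of `S` whose outward letter is `b` -/
def cnt (σ : ℕ → Bool) (S : Finset ℕ) (m : ℕ) (b : Bool) : ℕ :=
  (S.filter fun p => m ≤ p ∧ σ p = b).card + (S.filter fun p => p < m ∧ σ p = !b).card

theorem card_er (s : Finset ℕ) (x : ℕ) : s.card ≤ (s.erase x).card + 1 := by
  have := Finset.pred_card_le_card_erase (s := s) (a := x)
  omega

/-- a set without consecutive elements is sparse -/
theorem sparse (lo hi : ℕ) (U : Finset ℕ) (hU : U ⊆ Finset.Ico lo hi)
    (h : ∀ i ∈ U, i + 1 ∉ U) : 2 * U.card ≤ hi + 1 - lo := by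
  classical
  have hd : Disjoint U (U.image fun i => i + 1) := by
    rw [Finset.disjoint_left]
    intro x hx hx'
    obtain ⟨y, hy, rfl⟩ := Finset.mem_image.1 hx'
    exact h y hy hx
  have hc : (U.image fun i => i + 1).card = U.card :=
    Finset.card_image_of_injective _ (fun p q hpq => by simpa using hpq)
  have hs : U ∪ (U.image fun i => i + 1) ⊆ Finset.Ico lo (hi + 1) := by
    intro x hx
    rcases Finset.mem_union.1 hx with hx | hx
    · have := Finset.mem_Ico.1 (hU hx)
      rw [Finset.mem_Ico]; omega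
    · obtain ⟨y, hy, rfl⟩ := Finset.mem_image.1 hx
      have := Finset.mem_Ico.1 (hU hy)
      rw [Finset.mem_Ico]; omega
  have := Finset.card_le_card hs
  rw [Finset.card_union_of_disjoint hd, hc, Nat.card_Ico] at this
  omega

/-- the indices of the positions of `S` with outward letter `!b` -/
def Q (σ : ℕ → Bool) (m a : ℕ) (S : Finset ℕ) (b : Bool) (i : ℕ) : Prop :=
  (i ≤ a ∧ m + i - 1 ∈ S ∧ σ (m + i - 1) = !b) ∨
    (a < i ∧ i ≤ a + m ∧ m - (i - a) ∈ S ∧ σ (m - (i - a)) = b)

theorem Q_mu (σ : ℕ → Bool) (m a : ℕ) (S : Finset ℕ) (b : Bool) (i : ℕ)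
    (h : Q σ m a S b i) : mu σ m a i = !b := by
  unfold mu
  rcases h with ⟨h1, _, h3⟩ | ⟨h1, _, _, h4⟩
  · rw [if_pos h1, h3]
  · rw [if_neg (by omega), h4]

theorem Q_cons (σ : ℕ → Bool) (m a : ℕ) (S : Finset ℕ)
    (hS : ∀ p ∈ S, p + 1 ∈ S → σ p ≠ σ (p + 1)) (b : Bool) (i : ℕ) (hi : 1 ≤ i)
    (h : Q σ m a S b i) (h' : Q σ m a S b (i + 1)) : i = a := by
  rcases h with ⟨h1, h2, h3⟩ | ⟨h1, h2, h3, h4⟩
  · rcases h' with ⟨k1, k2, k3⟩ | ⟨k1, _, _, _⟩
    · exfalso
      have e : m + (i + 1) - 1 = m + i - 1 + 1 := by omega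
      rw [e] at k2 k3
      exact hS _ h2 k2 (by rw [h3, k3])
    · omega
  · rcases h' with ⟨k1, _, _⟩ | ⟨k1, k2, k3, k4⟩
    · omega
    · exfalso
      have e : m - (i - a) = m - (i + 1 - a) + 1 := by omega
      rw [e] at h3 h4
      exact hS _ k3 h3 (by rw [h4, k4])

theorem cnt_le (σ : ℕ → Bool) (k m a M : ℕ) (S : Finset ℕ)
    (hSk : S ⊆ Finset.range k) (ha : k - m ≤ a) (hM : a + m ≤ M) (b : Bool)
    [DecidablePred (Q σ m a S b)] :
    cnt σ S m (!b) ≤ ((Finset.Icc 1 M).filter (Q σ m a S b)).card := by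
  classical
  set S' := (Finset.Icc 1 M).filter (Q σ m a S b) with hS'
  have hA : (S.filter fun p => m ≤ p ∧ σ p = !b).card ≤ (S'.filter fun i => i ≤ a).card := by
    refine Finset.card_le_card_of_injOn (fun p => p - m + 1) ?_ ?_
    · intro p hp
      have hp' := Finset.mem_filter.1 (Finset.mem_coe.1 hp)
      have hk := Finset.mem_range.1 (hSk hp'.1)
      have e : m + (p - m + 1) - 1 = p := by omega
      rw [Finset.mem_coe, Finset.mem_filter, hS', Finset.mem_filter, Finset.mem_Icc]
      beta_reduce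
      refine ⟨⟨⟨by omega, by omega⟩, Or.inl ⟨by omega, ?_, ?_⟩⟩, by omega⟩
      · rw [e]; exact hp'.1
      · rw [e]; exact hp'.2.2
    · intro p hp q hq hpq
      have hp' := Finset.mem_filter.1 (Finset.mem_coe.1 hp)
      have hq' := Finset.mem_filter.1 (Finset.mem_coe.1 hq)
      have h1 := hp'.2.1
      have h2 := hq'.2.1
      have h3 : p - m + 1 = q - m + 1 := hpq
      omega
  have hB : (S.filter fun p => p < m ∧ σ p = !(!b)).card ≤
      (S'.filter fun i => ¬ i ≤ a).card := by
    refine Finset.card_le_card_of_injOn (fun p => a + (m - p)) ?_ ?_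
    · intro p hp
      have hp' := Finset.mem_filter.1 (Finset.mem_coe.1 hp)
      have h1 := hp'.2.1
      have e : m - (a + (m - p) - a) = p := by omega
      rw [Finset.mem_coe, Finset.mem_filter, hS', Finset.mem_filter, Finset.mem_Icc]
      beta_reduce
      refine ⟨⟨⟨by omega, by omega⟩, Or.inr ⟨by omega, by omega, ?_, ?_⟩⟩, by omega⟩
      · rw [e]; exact hp'.1
      · rw [e, hp'.2.2, Bool.not_not]
    · intro p hp q hq hpq
      have hp' := Finset.mem_filter.1 (Finset.mem_coe.1 hp)
      have hq' := Finset.mem_filter.1 (Finset.mem_coe.1 hq)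
      have h1 := hp'.2.1
      have h2 := hq'.2.1
      have h3 : a + (m - p) = a + (m - q) := hpq
      omega
  have hsum := Finset.card_filter_add_card_filter_not (s := S') (fun i => i ≤ a)
  unfold cnt
  omega

/-- (C1) -/
theorem comb (σ : ℕ → Bool) (k m a M : ℕ) (hm : m ≤ k) (S : Finset ℕ)
    (hSk : S ⊆ Finset.range k) (hS : ∀ p ∈ S, p + 1 ∈ S → σ p ≠ σ (p + 1))
    (ha : k - m ≤ a) (hM : a + m ≤ M) (b : Bool) (t : ℕ) (ht : 1 ≤ t) (htM : t ≤ M + 1)
    (f : Finset ℕ) (hf : f ⊆ Finset.Ico 1 t) (hI : Indep (mu σ m a) (pr a) b f) :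
    2 * f.card + 2 * cnt σ S m (!b) ≤ t + M + 6 := by
  classical
  have hcnt := cnt_le σ k m a M S hSk ha hM b
  set S' := (Finset.Icc 1 M).filter (Q σ m a S b) with hS'
  have hmem : ∀ i ∈ S', 1 ≤ i ∧ i ≤ M ∧ Q σ m a S b i := by
    intro i hi
    rw [hS', Finset.mem_filter, Finset.mem_Icc] at hi
    exact ⟨hi.1.1, hi.1.2, hi.2⟩
  have hcons : ∀ i ∈ S', i + 1 ∈ S' → i = a := by
    intro i hi hi'
    exact Q_cons σ m a S hS b i (hmem i hi).1 (hmem i hi).2.2 (hmem _ hi').2.2
  -- the part above `t`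
  have hU : 2 * (((S'.filter fun i => ¬ i < t).erase (a + 1)).card) ≤ M + 1 + 1 - t := by
    refine sparse t (M + 1) _ ?_ ?_
    · intro i hi
      have h1 := (Finset.mem_filter.1 (Finset.mem_erase.1 hi).2)
      have h2 := hmem i h1.1
      rw [Finset.mem_Ico]; omega
    · intro i hi hi'
      have h1 := (Finset.mem_filter.1 (Finset.mem_erase.1 hi).2)
      have h2 := (Finset.mem_filter.1 (Finset.mem_erase.1 hi').2)
      have h3 := hcons i h1.1 h2.1
      exact (Finset.mem_erase.1 hi').1 (by rw [h3])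
  have hU' : (S'.filter fun i => ¬ i < t).card ≤
      ((S'.filter fun i => ¬ i < t).erase (a + 1)).card + 1 :=
    card_er _ _
  -- the part below `t`
  have hV : (((S'.filter fun i => i < t).erase (a + 1)).erase 1).card ≤
      (Finset.Ico 1 t \ f).card := by
    refine Finset.card_le_card_of_injOn (fun i => if i ∈ f then i - 1 else i) ?_ ?_
    · intro i hi
      have h0 := Finset.mem_erase.1 (Finset.mem_coe.1 hi)
      have h1 := Finset.mem_erase.1 h0.2
      have h2 := Finset.mem_filter.1 h1.2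
      have h3 := hmem i h2.1
      rw [Finset.mem_coe, Finset.mem_sdiff]
      show (if i ∈ f then i - 1 else i) ∈ _ ∧ (if i ∈ f then i - 1 else i) ∉ _
      split_ifs with hif
      · have h4 := hI i hif (Q_mu σ m a S b i h3.2.2)
        rw [pr, if_neg h1.1] at h4
        refine ⟨?_, h4⟩
        rw [Finset.mem_Ico]
        have := h0.1
        omega
      · refine ⟨?_, hif⟩
        rw [Finset.mem_Ico]
        exact ⟨h3.1, h2.2⟩
    · intro i hi j hj hij
      have hi0 := Finset.mem_erase.1 (Finset.mem_coe.1 hi)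
      have hi1 := Finset.mem_erase.1 hi0.2
      have hi2 := Finset.mem_filter.1 hi1.2
      have hi3 := hmem i hi2.1
      have hj0 := Finset.mem_erase.1 (Finset.mem_coe.1 hj)
      have hj1 := Finset.mem_erase.1 hj0.2
      have hj2 := Finset.mem_filter.1 hj1.2
      have hj3 := hmem j hj2.1
      have hij' : (if i ∈ f then i - 1 else i) = (if j ∈ f then j - 1 else j) := hij
      split_ifs at hij' with h1 h2 h2
      · omega
      · exfalso
        have e : i = j + 1 := by omega
        have h3 := hcons j hj2.1 (by rw [← e]; exact hi2.1)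
        exact hi1.1 (by omega)
      · exfalso
        have e : j = i + 1 := by omega
        have h3 := hcons i hi2.1 (by rw [← e]; exact hj2.1)
        exact hj1.1 (by omega)
      · exact hij'
  have hV' : (S'.filter fun i => i < t).card ≤
      (((S'.filter fun i => i < t).erase (a + 1)).erase 1).card + 2 := by
    have h1 : (S'.filter fun i => i < t).card ≤
      ((S'.filter fun i => i < t).erase (a + 1)).card + 1 := card_er _ _
    have h2 : ((S'.filter fun i => i < t).erase (a + 1)).card ≤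
      (((S'.filter fun i => i < t).erase (a + 1)).erase 1).card + 1 :=
      card_er _ _
    omega
  have hW : (Finset.Ico 1 t \ f).card + f.card = t - 1 := by
    have := Finset.card_sdiff_add_card_eq_card hf
    rw [this, Nat.card_Ico]
  have hsum := Finset.card_filter_add_card_filter_not (s := S') (fun i => i < t)
  omega

theorem cnt_eq (σ : ℕ → Bool) (S : Finset ℕ) (m : ℕ) (b : Bool) :
    cnt σ S m b = (S.filter fun p => (m ≤ p ∧ σ p = b) ∨ (p < m ∧ σ p = !b)).card := by
  classical
  unfold cnt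
  rw [Finset.filter_or, Finset.card_union_of_disjoint]
  rw [Finset.disjoint_filter]
  intro x _ h1 h2
  omega

theorem cnt_add (σ : ℕ → Bool) (S : Finset ℕ) (m : ℕ) (b : Bool) :
    cnt σ S m b + cnt σ S m (!b) = S.card := by
  classical
  rw [cnt_eq, cnt_eq]
  rw [← Finset.card_filter_add_card_filter_not (s := S)
    (fun p => (m ≤ p ∧ σ p = b) ∨ (p < m ∧ σ p = !b))]
  have : (S.filter fun p => (m ≤ p ∧ σ p = !b) ∨ (p < m ∧ σ p = !(!b))) =
      (S.filter fun p => ¬ ((m ≤ p ∧ σ p = b) ∨ (p < m ∧ σ p = !b))) := by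
    refine Finset.filter_congr fun p _ => ?_
    rcases Nat.lt_or_ge p m with h | h
    · have h' : ¬ m ≤ p := by omega
      cases hb : b <;> cases hs : σ p <;> simp [h, h']
    · have h' : ¬ p < m := by omega
      cases hb : b <;> cases hs : σ p <;> simp [h, h']
  rw [this]

theorem cnt_succ (σ : ℕ → Bool) (S : Finset ℕ) (m : ℕ) (b : Bool) :
    cnt σ S (m + 1) b ≤ cnt σ S m b + 1 := by
  classical
  rw [cnt_eq, cnt_eq]
  refine le_trans (Finset.card_le_card (t := insert m
    (S.filter fun p => (m ≤ p ∧ σ p = b) ∨ (p < m ∧ σ p = !b))) ?_) (Finset.card_insert_le _ _)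
  intro p hp
  rw [Finset.mem_insert]
  by_cases e : p = m
  · exact Or.inl e
  · refine Or.inr ?_
    rw [Finset.mem_filter] at hp ⊢
    refine ⟨hp.1, ?_⟩
    rcases hp.2 with h | h
    · exact Or.inl ⟨by omega, h.2⟩
    · exact Or.inr ⟨by omega, h.2⟩

/-- (C2) -/
theorem balance (σ : ℕ → Bool) (k : ℕ) (S : Finset ℕ) (hSk : S ⊆ Finset.range k) :
    ∃ m ≤ k, ∀ b, S.card ≤ 2 * cnt σ S m b + 1 := by
  classical
  by_contra hcon
  push Not at hcon
  have h0 : ∀ b, cnt σ S k b = cnt σ S 0 (!b) := by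
    intro b
    rw [cnt_eq, cnt_eq]
    congr 1
    refine Finset.filter_congr fun p hp => ?_
    have := Finset.mem_range.1 (hSk hp)
    have h1 : ¬ k ≤ p := by omega
    simp [this, h1]
  -- some letter has a majority at `0`
  obtain ⟨b, hb⟩ := hcon 0 (Nat.zero_le k)
  have key : ∀ m ≤ k, 2 * cnt σ S m b + 1 < S.card := by
    intro m
    induction m with
    | zero => exact fun _ => hb
    | succ m ih =>
      intro hm
      have h1 := ih (by omega)
      have h2 := cnt_succ σ S m b
      obtain ⟨b', hb'⟩ := hcon (m + 1) hm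
      by_cases e : b' = b
      · rw [e] at hb'; exact hb'
      · have e' : b' = !b := by
          cases b <;> cases b' <;> simp_all
        rw [e'] at hb'
        have h3 := cnt_add σ S (m + 1) b
        omega
  have h1 := key k le_rfl
  rw [h0 b] at h1
  have h2 := cnt_add σ S 0 b
  omega

end Pool.Agent.Helper1.OQ
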