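import Pool.Agent.Helper1.OP.Numerics

/-!
MP_f8e2d3_co (OQ): the numerics.
-/

set_option autoImplicit false

namespace Pool.Agent.Helper1.OQ

open Pool.Agent.Helper1.OP (pow_small pow_large)

/-- The growth condition at one step. -/
theorem step_ineq (ε : ℝ) (hε : 0 < ε) (hε' : ε ≤ 1 / 2) (L L' T q D : ℕ) (hL : 24 / ε ≤ L)
    (hq : 48 * L / ε ≤ q) (hT : 1 ≤ T) (hD : 48 * (T : ℝ) / ε ≤ D)
    (hL' : (1 / 2 + ε / 8) * L ≤ L') :
    1 + (1 / (q : ℝ)) * (1 + 1 / (q : ℝ)) ^ L * ((L + 1) * D / (2 * (D - T))) ≤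
      (1 + 1 / (q : ℝ)) ^ L' := by
  have hL0 : (0 : ℝ) < L := lt_of_lt_of_le (by positivity) hL
  have hTr : (1 : ℝ) ≤ T := by exact_mod_cast hT
  have hq0 : (0 : ℝ) < q := lt_of_lt_of_le (by positivity) hq
  have hq1 : 1 ≤ q := by
    have : 0 < q := by exact_mod_cast hq0
    omega
  have hD0 : (0 : ℝ) < D := lt_of_lt_of_le (by positivity) hD
  have hTD : (T : ℝ) ≤ ε / 48 * D := by
    rw [div_le_iff₀ hε] at hD
    linarith
  have hDT : (0 : ℝ) < D - T := by nlinarith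
  obtain ⟨a, ha⟩ : ∃ a : ℝ, a = ε / 24 := ⟨_, rfl⟩
  have ha0 : 0 < a := by rw [ha]; positivity
  have ha1 : a ≤ 1 / 48 := by rw [ha]; linarith
  have f1 : (1 + 1 / (q : ℝ)) ^ L ≤ 1 + a := by
    apply pow_small q L a hq1 _ ha0.le (by linarith)
    rw [div_le_iff₀ hq0, ha]
    rw [div_le_iff₀ hε] at hq
    nlinarith
  have f2 : ((L : ℝ) + 1) ≤ L * (1 + a) := by
    rw [div_le_iff₀ hε] at hL
    rw [ha]
    nlinarith
  have f3 : (D : ℝ) / (D - T) ≤ 1 + a := by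
    rw [div_le_iff₀ hDT]
    have : (T : ℝ) ≤ a / 2 * D := by rw [ha]; linarith
    nlinarith
  have f2' : ((L : ℝ) + 1) / L ≤ 1 + a := by
    rw [div_le_iff₀ hL0]
    linarith
  have e1 : (1 / (q : ℝ)) * (1 + 1 / (q : ℝ)) ^ L * ((L + 1) * D / (2 * (D - T))) =
      L / q / 2 * ((1 + 1 / (q : ℝ)) ^ L * ((L + 1) / L) * (D / (D - T))) := by
    field_simp
  have h1 : (1 + 1 / (q : ℝ)) ^ L * ((L + 1) / L) * (D / (D - T)) ≤
      (1 + a) * (1 + a) * (1 + a) := by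
    gcongr
  have h2 : (1 + a) * (1 + a) * (1 + a) ≤ 1 + ε / 4 := by
    have : ε / 4 = 6 * a := by rw [ha]; ring
    rw [this]
    nlinarith [mul_pos ha0 ha0]
  have h3 : (1 : ℝ) + L' * (1 / (q : ℝ)) ≤ (1 + 1 / (q : ℝ)) ^ L' :=
    one_add_mul_le_pow (by have : (0 : ℝ) < 1 / q := by positivity
                           linarith) L'
  have h4 : (L : ℝ) / q / 2 * ((1 + 1 / (q : ℝ)) ^ L * ((L + 1) / L) * (D / (D - T))) ≤
      L / q / 2 * (1 + ε / 4) := mul_le_mul_of_nonneg_left (h1.trans h2) (by positivity)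
  have h5 : (L : ℝ) / q / 2 * (1 + ε / 4) = ((1 / 2 + ε / 8) * L) * (1 / q) := by ring
  have h6 : ((1 / 2 + ε / 8) * L) * (1 / (q : ℝ)) ≤ L' * (1 / q) :=
    mul_le_mul_of_nonneg_right hL' (by positivity)
  rw [e1]
  linarith

/-- (N) Choice: `L` large (`≥ C/ε`), `L' = ⌈(1/2 + ε/8) L⌉`, `q ≥ C L / ε`, `J ≥ C/ε²`, all
constants; `K = k / (J L) + 2`; `D₀ = ⌈C K L / ε⌉`; `B = ⌊c k⌋` with `J c ≤ ε / 8`;
`Λ = 2 * (J*(K*L) + 1 + (D₀ + J*(L'*K+B)))` = O(k).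
`hL'` by Bernoulli `(1 + 1/q)^L' ≥ 1 + L'/q` and `(1+1/q)^L ≤ 1 + a`, `D/(D-KL) ≤ 1 + a`.
`hB`: the left side is O(k²), the right side is exponential in `k`. -/
theorem numerics (ε : ℝ) (hε : 0 < ε) (hε' : ε ≤ 1 / 2) :
    ∃ k₀ : ℕ, ∀ k : ℕ, k₀ ≤ k → ∃ J L L' K q B D₀ Λ : ℕ,
      1 ≤ q ∧ 1 ≤ L ∧ L ≤ 2 * L' ∧ K * L < D₀ ∧
      2 * (J * (K * L) + 1 + (D₀ + J * (L' * K + B))) ≤ Λ ∧
      (∀ D : ℕ, D₀ ≤ D →
        1 + (1 / (q : ℝ)) * (1 + 1 / (q : ℝ)) ^ L * ((L + 1) * D / (2 * (D - (K * L : ℕ)))) ≤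
          (1 + 1 / (q : ℝ)) ^ L') ∧
      ((4 * Λ * (J * (K * L) + 1) : ℕ) : ℝ) * (1 + 1 / (q : ℝ)) ^ L <
        (1 + 1 / (q : ℝ)) ^ (B + 1) ∧
      k + L ≤ J * (K * L) ∧
      ((2 * (L' * (J * K)) + J * (K * L) + 10 + 2 * D₀ + 2 * (J * B) : ℕ) : ℝ) ≤
        2 * k + 2 * ε * k := by
  obtain ⟨L, hL⟩ := exists_nat_ge (24 / ε)
  obtain ⟨q, hq⟩ := exists_nat_ge (48 * L / ε)
  obtain ⟨J, hJ⟩ := exists_nat_ge (384 / ε ^ 2)
  obtain ⟨L', hL'⟩ : ∃ L' : ℕ, L' = ⌈(1 / 2 + ε / 8) * (L : ℝ)⌉₊ := ⟨_, rfl⟩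
  have hL0 : (0 : ℝ) < L := lt_of_lt_of_le (by positivity) hL
  have hJ0 : (0 : ℝ) < J := lt_of_lt_of_le (by positivity) hJ
  have hq0 : (0 : ℝ) < q := lt_of_lt_of_le (by positivity) hq
  have hL48 : (48 : ℝ) ≤ L := by
    refine le_trans ?_ hL
    rw [le_div_iff₀ hε]
    linarith
  have hL'1 : (1 / 2 + ε / 8) * (L : ℝ) ≤ L' := by rw [hL']; exact Nat.le_ceil _
  have hL'2 : (L' : ℝ) ≤ (1 / 2 + ε / 8) * L + 1 := by
    rw [hL']
    exact (Nat.ceil_lt_add_one (by positivity)).le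
  have hL'3 : (L' : ℝ) ≤ L := by nlinarith
  have hLn : 1 ≤ L := by
    have : 0 < L := by exact_mod_cast hL0
    omega
  have hJn : 1 ≤ J := by
    have : 0 < J := by exact_mod_cast hJ0
    omega
  have hqn : 1 ≤ q := by
    have : 0 < q := by exact_mod_cast hq0
    omega
  have hJr : (1 : ℝ) ≤ J := by exact_mod_cast hJn
  obtain ⟨c, hc⟩ : ∃ c : ℝ, c = ε / (8 * J) := ⟨_, rfl⟩
  have hc0 : 0 < c := by rw [hc]; positivity
  obtain ⟨Y₁, hY₁⟩ : ∃ Y₁ : ℝ, Y₁ = 2 * (J * L) + 2 := ⟨_, rfl⟩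
  have hY₁0 : 0 < Y₁ := by rw [hY₁]; positivity
  obtain ⟨Y₂, hY₂⟩ : ∃ Y₂ : ℝ, Y₂ = 2 * (Y₁ + 48 * Y₁ / ε + 1 + Y₁ + 1) := ⟨_, rfl⟩
  have hY₂0 : 0 < Y₂ := by rw [hY₂]; positivity
  obtain ⟨X₁, hX₁⟩ : ∃ X₁ : ℝ, X₁ = 3 * (2 * (J * L)) + 4 * J + 12 + 2 * (96 * L / ε) :=
    ⟨_, rfl⟩
  obtain ⟨X₂, hX₂⟩ : ∃ X₂ : ℝ, X₂ = 48 * (Y₁ * Y₂) * ((q + 1) / c) ^ 3 := ⟨_, rfl⟩
  obtain ⟨k₀, hk₀⟩ := exists_nat_ge (max (X₁ / ε) (X₂ + 1))
  refine ⟨k₀, fun k hk => ?_⟩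
  have hkr : (k₀ : ℝ) ≤ k := by exact_mod_cast hk
  have hk1 : X₁ ≤ ε * k := by
    have h1 : X₁ / ε ≤ k := (le_max_left _ _).trans (hk₀.trans hkr)
    rw [div_le_iff₀ hε] at h1
    linarith
  have hk2 : X₂ + 1 ≤ k := (le_max_right _ _).trans (hk₀.trans hkr)
  have hX₂0 : 0 ≤ X₂ := by rw [hX₂]; positivity
  have hk3 : (1 : ℝ) ≤ k := by linarith
  have hk0 : (0 : ℝ) < k := by linarith
  obtain ⟨K, hK⟩ : ∃ K : ℕ, K = k / (J * L) + 2 := ⟨_, rfl⟩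
  have hJL : 0 < J * L := by positivity
  have hKn1 : k + J * L ≤ J * (K * L) := by
    have h1 := Nat.div_add_mod k (J * L)
    have h2 := Nat.mod_lt k hJL
    have h3 : J * (K * L) = J * L * (k / (J * L)) + 2 * (J * L) := by rw [hK]; ring
    rw [h3]
    omega
  have hKn2 : J * (K * L) ≤ k + 2 * (J * L) := by
    have h1 := Nat.mul_div_le k (J * L)
    have h3 : J * (K * L) = J * L * (k / (J * L)) + 2 * (J * L) := by rw [hK]; ring
    rw [h3]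
    omega
  have hKr2 : (J : ℝ) * (K * L) ≤ k + 2 * (J * L) := by exact_mod_cast hKn2
  have hK0 : 0 < K := by rw [hK]; exact Nat.succ_pos _
  have hKL1 : 1 ≤ K * L := Nat.mul_pos hK0 hLn
  have hKL0 : (0 : ℝ) < (K : ℝ) * L := by exact_mod_cast hKL1
  obtain ⟨D₀, hD₀⟩ : ∃ D₀ : ℕ, D₀ = ⌈48 * ((K * L : ℕ) : ℝ) / ε⌉₊ := ⟨_, rfl⟩
  have hD1 : 48 * ((K * L : ℕ) : ℝ) / ε ≤ D₀ := by rw [hD₀]; exact Nat.le_ceil _
  have hD2 : (D₀ : ℝ) ≤ 48 * (K * L) / ε + 1 := by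
    have h1 := (Nat.ceil_lt_add_one (show 0 ≤ 48 * ((K * L : ℕ) : ℝ) / ε by positivity)).le
    rw [← hD₀] at h1
    push_cast at h1
    exact h1
  obtain ⟨B, hB⟩ : ∃ B : ℕ, B = ⌊c * (k : ℝ)⌋₊ := ⟨_, rfl⟩
  have hB1 : (B : ℝ) ≤ c * k := by rw [hB]; exact Nat.floor_le (by positivity)
  have hB2 : c * k ≤ (B : ℝ) + 1 := by rw [hB]; exact (Nat.lt_floor_add_one _).le
  have hJB : (J : ℝ) * B ≤ ε / 8 * k := by
    have h1 : (J : ℝ) * B ≤ J * (c * k) := mul_le_mul_of_nonneg_left hB1 hJ0.le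
    have h2 : (J : ℝ) * (c * k) = ε / 8 * k := by
      rw [hc]
      field_simp
    linarith
  -- `K L` is small
  have hKLr : (K : ℝ) * L ≤ k / J + 2 * L := by
    have h1 : (K : ℝ) * L ≤ (k + 2 * (J * L)) / J := by
      rw [le_div_iff₀ hJ0]
      linarith
    have h2 : ((k : ℝ) + 2 * (J * L)) / J = k / J + 2 * L := by
      field_simp
    linarith
  have hJLk : 2 * ((J : ℝ) * L) ≤ 2 * (J * L) * k :=
    le_mul_of_one_le_right (by positivity) hk3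
  have hJK : (J : ℝ) * (K * L) + 1 ≤ Y₁ * k := by
    rw [hY₁]
    linarith
  have hKLk : (K : ℝ) * L ≤ Y₁ * k := by
    have h1 : (K : ℝ) * L ≤ J * (K * L) := le_mul_of_one_le_left hKL0.le hJr
    linarith
  refine ⟨J, L, L', K, q, B, D₀, 2 * (J * (K * L) + 1 + (D₀ + J * (L' * K + B))), hqn, hLn,
    ?_, ?_, le_rfl, ?_, ?_, ?_, ?_⟩
  · have h1 : (L : ℝ) ≤ 2 * L' := by
      have h2 : 0 < ε * L := by positivity
      linarith
    exact_mod_cast h1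
  · have h1 : ((K * L : ℕ) : ℝ) < D₀ := by
      refine lt_of_lt_of_le ?_ hD1
      rw [lt_div_iff₀ hε]
      push_cast
      have h2 := mul_le_mul_of_nonneg_left hε' hKL0.le
      linarith
    exact_mod_cast h1
  · intro D hD
    have hDr : (D₀ : ℝ) ≤ D := by exact_mod_cast hD
    exact step_ineq ε hε hε' L L' (K * L) q D hL hq hKL1 (hD1.trans hDr) hL'1
  · have g1 : (1 + 1 / (q : ℝ)) ^ L ≤ 2 := by
      have h1 := pow_small q L (ε / 24) hqn (by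
        rw [div_le_iff₀ hq0]
        rw [div_le_iff₀ hε] at hq
        linarith) (by positivity) (by linarith)
      linarith
    have g2 : (D₀ : ℝ) ≤ 48 * Y₁ / ε * k + k := by
      have h1 : 48 * ((K : ℝ) * L) / ε ≤ 48 * (Y₁ * k) / ε := by gcongr
      have h2 : 48 * (Y₁ * k) / ε = 48 * Y₁ / ε * k := by ring
      linarith
    have g3 : (J : ℝ) * (L' * K) ≤ Y₁ * k := by
      have h1 : (J : ℝ) * (L' * K) ≤ J * (L * K) := by gcongr
      have h2 : (J : ℝ) * (L * K) = J * (K * L) := by ring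
      linarith
    have g4 : (J : ℝ) * B ≤ k := by
      have h1 := mul_le_mul_of_nonneg_right hε' hk0.le
      linarith
    have g5 : ((4 * (2 * (J * (K * L) + 1 + (D₀ + J * (L' * K + B)))) *
        (J * (K * L) + 1) : ℕ) : ℝ) ≤ 4 * (Y₂ * k) * (Y₁ * k) := by
      push_cast
      have h1 : 2 * ((J : ℝ) * (K * L) + 1 + (D₀ + J * (L' * K + B))) ≤ Y₂ * k := by
        have h2 : Y₂ * k = 2 * (Y₁ * k + (48 * Y₁ / ε * k + k) + Y₁ * k + k) := by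
          rw [hY₂]
          ring
        rw [h2]
        have h3 : (J : ℝ) * (L' * K + B) = J * (L' * K) + J * B := by ring
        rw [h3]
        linarith
      gcongr
    have g6 : Real.exp (c * k / (q + 1)) ≤ (1 + 1 / (q : ℝ)) ^ (B + 1) := by
      refine le_trans ?_ (pow_large q (B + 1) hqn)
      refine Real.exp_le_exp.2 ?_
      push_cast
      gcongr
    have g7 : (c * k / (q + 1)) ^ 3 / 6 ≤ Real.exp (c * k / (q + 1)) := by
      have h1 := Real.pow_div_factorial_le_exp (c * k / (q + 1)) (by positivity) 3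
      have h2 : ((Nat.factorial 3 : ℕ) : ℝ) = 6 := by norm_num [Nat.factorial]
      rwa [h2] at h1
    have g8 : 4 * (Y₂ * k) * (Y₁ * k) * 2 < (c * k / (q + 1)) ^ 3 / 6 := by
      have h1 : X₂ < k := by linarith
      have h2 : (c * k / (q + 1)) ^ 3 / 6 = k ^ 2 * (k * (c / (q + 1)) ^ 3 / 6) := by ring
      have h3 : 4 * (Y₂ * k) * (Y₁ * k) * 2 = k ^ 2 * (8 * (Y₁ * Y₂)) := by ring
      rw [h2, h3]
      have h4 : 8 * (Y₁ * Y₂) < k * (c / (q + 1)) ^ 3 / 6 := by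
        have h5 : X₂ * (c / (q + 1)) ^ 3 = 48 * (Y₁ * Y₂) := by
          rw [hX₂]
          have h6 : ((q : ℝ) + 1) ≠ 0 := by positivity
          field_simp
        have h7 : X₂ * (c / (q + 1)) ^ 3 < k * (c / (q + 1)) ^ 3 :=
          mul_lt_mul_of_pos_right h1 (by positivity)
        linarith
      exact mul_lt_mul_of_pos_left h4 (by positivity)
    calc ((4 * (2 * (J * (K * L) + 1 + (D₀ + J * (L' * K + B)))) *
        (J * (K * L) + 1) : ℕ) : ℝ) * (1 + 1 / (q : ℝ)) ^ L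
        ≤ 4 * (Y₂ * k) * (Y₁ * k) * 2 := by gcongr
      _ < (c * k / (q + 1)) ^ 3 / 6 := g8
      _ ≤ _ := g7.trans g6
  · have h1 : L ≤ J * L := Nat.le_mul_of_pos_left L hJn
    omega
  · push_cast
    have h1 : 2 * ((L' : ℝ) * (J * K)) ≤ (1 + ε / 4) * (J * (K * L)) + 2 * (J * K) := by
      have h2 : 2 * ((L' : ℝ) * (J * K)) ≤ 2 * (((1 / 2 + ε / 8) * L + 1) * (J * K)) := by
        gcongr
      have h3 : 2 * (((1 / 2 + ε / 8) * (L : ℝ) + 1) * (J * K)) =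
          (1 + ε / 4) * (J * (K * L)) + 2 * (J * K) := by ring
      linarith
    have h2 : 2 * ((J : ℝ) * K) ≤ ε / 8 * k + 4 * J := by
      have h3 : (J : ℝ) * K ≤ (k + 2 * (J * L)) / L := by
        rw [le_div_iff₀ hL0]
        have : (J : ℝ) * K * L = J * (K * L) := by ring
        linarith
      have h4 : ((k : ℝ) + 2 * (J * L)) / L = k / L + 2 * J := by
        field_simp
      have h5 : (k : ℝ) / L ≤ ε / 16 * k := by
        rw [div_le_iff₀ hL0]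
        rw [div_le_iff₀ hε] at hL
        have h6 := mul_le_mul_of_nonneg_left hL hk0.le
        linarith
      linarith
    have h3 : (1 + ε / 4) * ((J : ℝ) * (K * L)) ≤ (1 + ε / 4) * (k + 2 * (J * L)) := by gcongr
    have h4 : 2 * (D₀ : ℝ) ≤ ε / 4 * k + 2 * (96 * L / ε) + 2 := by
      have h5 : 48 * ((K : ℝ) * L) / ε ≤ 48 * (k / J + 2 * L) / ε := by gcongr
      have h6 : 48 * ((k : ℝ) / J + 2 * L) / ε = 48 / (ε * J) * k + 96 * L / ε := by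
        field_simp
        ring
      have h7 : 48 / (ε * J) ≤ ε / 8 := by
        rw [div_le_iff₀ (by positivity)]
        rw [div_le_iff₀ (by positivity)] at hJ
        linarith
      have h8 : 48 / (ε * J) * (k : ℝ) ≤ ε / 8 * k := by gcongr
      linarith
    have h5 : (1 + ε / 4) * ((k : ℝ) + 2 * (J * L)) ≤
        k + ε / 4 * k + 2 * (2 * (J * L)) := by
      have h6 : 0 < (J : ℝ) * L := mul_pos hJ0 hL0
      have h7 : ε * (J * L) ≤ 1 / 2 * (J * L) := mul_le_mul_of_nonneg_right hε' h6.le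
      linarith
    rw [hX₁] at hk1
    have h6 : 0 < ε * k := by positivity
    linarith

end Pool.Agent.Helper1.OQ
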