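import Pool.Agent.Helper1.OQ.Assembly
import Pool.Agent.Helper1.OQ.Comb
import Pool.Agent.Helper1.OQ.Numerics

/-!
MP_f8e2d3_co: hosts with hubs. The main theorem in neighbourhood form.
-/

set_option autoImplicit false
set_option linter.unusedSectionVars false

namespace Pool.Agent.Helper1.OQ

/-- (Main). -/
theorem main (ε : ℝ) (hε : 0 < ε) :
    ∃ k₀ : ℕ, ∀ k : ℕ, k₀ ≤ k → ∀ (σ : ℕ → Bool) (S : Finset ℕ), S ⊆ Finset.range k →
      (∀ p ∈ S, p + 1 ∈ S → σ p ≠ σ (p + 1)) →
      ∀ (V : Type) [Fintype V] [DecidableEq V] [Nonempty V] (N : Bool → V → Finset V),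
      (∀ b x y, y ∈ N b x → x ∉ N b y) → (∀ b x y, y ∈ N b x → x ∈ N (!b) y) →
      (∀ b v, (k : ℝ) - (S.card : ℝ) / 2 + ε * k ≤ (N b v).card) →
      ∃ X : ℕ → V, (∀ i < k, X (i + 1) ∈ N (σ i) (X i)) ∧
        (∀ i ≤ k, ∀ i' ≤ k, X i = X i' → i = i') := by
  obtain ⟨k₀, hnum⟩ := numerics (min ε (1 / 2)) (lt_min hε (by norm_num)) (min_le_right _ _)
  refine ⟨k₀, ?_⟩
  intro k hk σ S hSk hS V _ _ hne N hNO hNs hdeg
  obtain ⟨x⟩ := hne
  set ε' : ℝ := min ε (1 / 2) with hε'
  have hεle : ε' ≤ ε := min_le_left _ _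
  obtain ⟨J, L, L', K, q, B, D₀, Λ, hq, hL, hLL, hT, hΛ, hL', hB, hkL, hfin⟩ := hnum k hk
  obtain ⟨m, hm, hbal⟩ := balance σ k S hSk
  -- the front
  obtain ⟨c, hc⟩ : ∃ c, k - m ≤ c * L ∧ c * L ≤ k - m + L := by
    refine ⟨(k - m) / L + 1, ?_, ?_⟩
    · have h1 := Nat.div_add_mod (k - m) L
      have h2 := Nat.mod_lt (k - m) hL
      have h3 : ((k - m) / L + 1) * L = L * ((k - m) / L) + L := by ring
      omega
    · have h1 := Nat.div_mul_le_self (k - m) L
      have h3 : ((k - m) / L + 1) * L = (k - m) / L * L + L := by ring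
      omega
  obtain ⟨hc1, hc2⟩ := hc
  set a : ℕ := c * L with ha
  set M : ℕ := J * (K * L) with hM
  have haM : a + m ≤ M := by omega
  set d : ℕ := ⌈(k : ℝ) - (S.card : ℝ) / 2 + ε' * k⌉₊ with hd
  have hk0 : (0 : ℝ) ≤ k := Nat.cast_nonneg _
  have hdN : ∀ b v, d ≤ (N b v).card := by
    intro b v
    apply Nat.ceil_le.2
    have h1 := hdeg b v
    have h2 : ε' * (k : ℝ) ≤ ε * k := by gcongr
    linarith
  have hdlow : (k : ℝ) - (S.card : ℝ) / 2 + ε' * k ≤ d := Nat.le_ceil _
  have hlt : ∀ i, 1 ≤ i → pr a i < i := by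
    intro i hi
    unfold pr
    split_ifs <;> omega
  have hpar : ∀ n j, 1 ≤ j → j < L → pr a (1 + n * L + j) = 1 + n * L + j - 1 := by
    intro n j h1 h2
    unfold pr
    rw [if_neg]
    intro h3
    have h4 : n * L + j = c * L := by omega
    rcases Nat.lt_or_ge n c with h5 | h5
    · have h6 : (n + 1) * L ≤ c * L := Nat.mul_le_mul_right _ h5
      have h7 : (n + 1) * L = n * L + L := by ring
      omega
    · have h6 : c * L ≤ n * L := Nat.mul_le_mul_right _ h5
      omega
  have hF : ∀ b, ∀ n ≤ J * K, ∀ f ⊆ Finset.Ico 1 (1 + n * L), Indep (mu σ m a) (pr a) b f →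
      f.card + 1 + (D₀ + L' * (J * K - n) + J * B) ≤ d := by
    intro b n hn f hf hI
    have hnM : n * L ≤ M := by
      calc n * L ≤ (J * K) * L := Nat.mul_le_mul_right _ hn
        _ = M := by rw [hM]; ring
    have h1 := comb σ k m a M hm S hSk hS hc1 haM b (1 + n * L) (by omega) (by omega) f hf hI
    have h2 := hbal (!b)
    obtain ⟨r, hr⟩ : ∃ r, J * K = n + r := ⟨J * K - n, by omega⟩
    have e1 : J * K - n = r := by omega
    have e2 : L' * (J * K) = L' * n + L' * r := by rw [hr]; ring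
    have e3 : n * L ≤ n * (2 * L') := Nat.mul_le_mul_left _ hLL
    have e4 : n * (2 * L') = 2 * (L' * n) := by ring
    have h3 : 2 * (f.card + 1 + (D₀ + L' * (J * K - n) + J * B)) + S.card ≤
        2 * (L' * (J * K)) + M + 10 + 2 * D₀ + 2 * (J * B) := by
      rw [e1, e2]
      omega
    have h4 : ((2 * (f.card + 1 + (D₀ + L' * (J * K - n) + J * B)) + S.card : ℕ) : ℝ) ≤
        2 * k + 2 * ε' * k := by
      refine le_trans ?_ hfin
      exact_mod_cast h3
    have h5 : ((f.card + 1 + (D₀ + L' * (J * K - n) + J * B) : ℕ) : ℝ) ≤ (d : ℝ) := by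
      rw [Nat.cast_add, Nat.cast_mul] at h4
      push_cast at h4 ⊢
      linarith
    exact_mod_cast h5
  obtain ⟨Y, Sp, hst, hinj, -⟩ := assembly N hNO hNs d Λ L L' K q B J D₀ (mu σ m a) (pr a)
    hdN hq hL hlt hpar hT hΛ hL' hB hF x J le_rfl
  rw [← hM] at hst hinj
  refine ⟨fun p => if m ≤ p then Y (p - m) else Y (a + (m - p)), ?_, ?_⟩
  · intro i hi
    show (if m ≤ i + 1 then Y (i + 1 - m) else Y (a + (m - (i + 1)))) ∈
      N (σ i) (if m ≤ i then Y (i - m) else Y (a + (m - i)))
    rcases Nat.lt_or_ge i m with h | h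
    · rw [if_neg (show ¬ m ≤ i by omega)]
      have h1 := hst (a + (m - i)) (by omega) (by omega)
      have hmu : mu σ m a (a + (m - i)) = !σ i := by
        unfold mu
        rw [if_neg (by omega)]
        congr 2
        omega
      rw [hmu] at h1
      have h2 := hNs _ _ _ h1
      rw [Bool.not_not] at h2
      have h3 : Y (pr a (a + (m - i))) =
          (if m ≤ i + 1 then Y (i + 1 - m) else Y (a + (m - (i + 1)))) := by
        unfold pr
        split_ifs with h4 h5 h5
        · congr 1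
          omega
        · omega
        · omega
        · congr 1
          omega
      rw [← h3]
      exact h2
    · rw [if_pos (show m ≤ i + 1 by omega), if_pos h]
      have h1 := hst (i + 1 - m) (by omega) (by omega)
      have hmu : mu σ m a (i + 1 - m) = σ i := by
        unfold mu
        rw [if_pos (by omega)]
        congr 1
        omega
      have hpr : pr a (i + 1 - m) = i - m := by
        unfold pr
        rw [if_neg (by omega)]
        omega
      rw [hmu, hpr] at h1
      exact h1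
  · intro i hi i' hi' heq
    have heq' : (if m ≤ i then Y (i - m) else Y (a + (m - i))) =
      (if m ≤ i' then Y (i' - m) else Y (a + (m - i'))) := heq
    split_ifs at heq' with h1 h2 h2
    · have := hinj _ (by omega) _ (by omega) heq'
      omega
    · have := hinj _ (by omega) _ (by omega) heq'
      omega
    · have := hinj _ (by omega) _ (by omega) heq'
      omega
    · have := hinj _ (by omega) _ (by omega) heq'
      omega

end Pool.Agent.Helper1.OQ
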